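import Mathlib

namespace Pool.Agent.MP_3fd3f5_an

open Filter Topology

/-- A finite zero-sum stochastic game with public signals: signal map `f`, stage payoff `g`,
row-stochastic transition matrices `P i j`. -/
structure Game (A Ω I J : Type) [Fintype Ω] [DecidableEq Ω] where
  f : Ω → A
  g : I → J → Ω → ℝ
  P : I → J → Matrix Ω Ω ℝ
  P_stoch : ∀ i j, P i j ∈ Matrix.rowStochastic ℝ Ω

/-- A behaviour strategy with action set `K`: a mixed action for each public history (past
signals and actions, most recent first) and current signal. -/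
def Strategy (A I J K : Type) [Fintype K] : Type :=
  List (A × I × J) → A → stdSimplex ℝ K

variable {A Ω I J : Type} [Fintype Ω] [DecidableEq Ω] [Fintype I] [Fintype J]

/-- The transition matrix `Id + h q(i,j)` of a stage of duration `h`, with `q = P - Id`. -/
noncomputable def Game.step (G : Game A Ω I J) (h : ℝ) (i : I) (j : J) : Matrix Ω Ω ℝ :=
  1 + h • (G.P i j - 1)

/-- Expected value of the stage payoff received `m` stages later, when the public history is `H`
(so the current stage has index `H.length`) and the current state is `ω`. -/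
noncomputable def Game.stagePay (G : Game A Ω I J) (h : ℕ → ℝ) (σ : Strategy A I J I)
    (τ : Strategy A I J J) : ℕ → List (A × I × J) → Ω → ℝ
  | 0, H, ω => ∑ i, ∑ j, (σ H (G.f ω)).1 i * (τ H (G.f ω)).1 j * G.g i j ω
  | m + 1, H, ω => ∑ i, ∑ j, (σ H (G.f ω)).1 i * (τ H (G.f ω)).1 j *
      ∑ ω', G.step (h H.length) i j ω ω' * G.stagePay h σ τ m ((G.f ω, i, j) :: H) ω'

/-- Expected total payoff `∑ w n * E[g_n]` for stage durations `h`, stage weights `w` and
initial law `p`. -/
noncomputable def Game.payoff (G : Game A Ω I J) (p : stdSimplex ℝ Ω) (h w : ℕ → ℝ)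
    (σ : Strategy A I J I) (τ : Strategy A I J J) : ℝ :=
  ∑' n, w n * ∑ ω, p.1 ω * G.stagePay h σ τ n [] ω

/-- `v` is the value of the zero-sum game with payoff `γ` (the first player maximises). -/
def IsValue {S T : Type} (γ : S → T → ℝ) (v : ℝ) : Prop :=
  (∀ ε > 0, ∃ σ, ∀ τ, v - ε ≤ γ σ τ) ∧ (∀ ε > 0, ∃ τ, ∀ σ, γ σ τ ≤ v + ε)

/-- Stage durations of a partition. -/
def dur (t : ℕ → ℝ) (n : ℕ) : ℝ := t (n + 1) - t n

/-- `v` is the limit of the values of the `lam`-discounted games as the mesh of the partition of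
`[0, ∞)` tends to `0` (and these values exist for all fine enough partitions). -/
def Game.IsDiscLimit (G : Game A Ω I J) (p : stdSimplex ℝ Ω) (lam v : ℝ) : Prop :=
  ∀ ε > 0, ∃ δ > 0, ∀ t : ℕ → ℝ, t 0 = 0 → StrictMono t → Tendsto t atTop atTop →
    (∀ n, dur t n ≤ δ) → ∃ u, IsValue (G.payoff p (dur t)
      fun n => lam * (∏ k ∈ Finset.range n, (1 - lam * dur t k)) * dur t n) u ∧ |u - v| ≤ ε

/-- `v` is the limit of the values of the horizon-`T` games as the mesh of the partition of
`[0, T)` tends to `0` (and these values exist for all fine enough partitions). -/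
def Game.IsHorLimit (G : Game A Ω I J) (p : stdSimplex ℝ Ω) (T v : ℝ) : Prop :=
  ∀ ε > 0, ∃ δ > 0, ∀ t : ℕ → ℝ, t 0 = 0 → StrictMono t → Tendsto t atTop (𝓝 T) →
    (∀ n, dur t n ≤ δ) → ∃ u, IsValue (G.payoff p (dur t) fun n => 1 / T * dur t n) u ∧
      |u - v| ≤ ε

end Pool.Agent.MP_3fd3f5_an
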