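import Pool.Agent.MP_3fd3f5_an.Limits

namespace Pool.Agent.MP_3fd3f5_an.Ex

open Sum

abbrev St : Type := (Bool × Bool × Fin 3 × Bool) ⊕ Option Bool
abbrev Sg : Type := (Bool × Bool × Fin 3) ⊕ Option Bool
abbrev Pos : Type := (Bool × Bool × ℕ) ⊕ Option Bool

noncomputable def p : ℝ := 1 / 10000

noncomputable def rho : Bool → Bool → ℝ
  | false, false => 1
  | false, true => 1 / 400
  | true, false => 1 / 400
  | true, true => 1 / 40

theorem p_pos : 0 < p := by norm_num [p]
theorem p_le : p ≤ 1 := by norm_num [p]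
theorem rho_pos (γ σ : Bool) : 0 < rho γ σ := by cases γ <;> cases σ <;> norm_num [rho]
theorem rho_le (γ σ : Bool) : rho γ σ ≤ 1 := by cases γ <;> cases σ <;> norm_num [rho]

def ind (b : Bool) : ℝ := bif b then 1 else 0

def up : Fin 3 → Fin 3 := ![1, 2, 1]

def tag : ℕ → Fin 3
  | 0 => 0
  | k + 1 => up (tag k)

theorem up_ne (t : Fin 3) : up t ≠ t := by revert t; decide
theorem up_ne0 (t : Fin 3) : up t ≠ 0 := by revert t; decide
theorem tag_eq0 {k : ℕ} (h : tag k = 0) : k = 0 := by
  cases k with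
  | zero => rfl
  | succ k => exact absurd h (up_ne0 _)

def sgOf : St → Sg
  | inl (γ, σ, t, _) => inl (γ, σ, t)
  | inr a => inr a

def paySg : Sg → ℝ
  | inl (_, σ, _) => ind σ
  | inr (some σ) => ind σ
  | inr none => 0

def ctlSg : Sg → Bool
  | inl (_, σ, _) => !σ
  | inr _ => false

/-- Destinations (action `false` = continue, `true` = quit). -/
def dest : St → Bool → Fin 4 → St
  | inl (γ, σ, t, _), false =>
      ![inl (γ, σ, up t, true), inl (γ, σ, up t, false), inl (γ, σ, 0, true), inl (γ, σ, 0, false)]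
  | inl (γ, σ, _, _), true =>
      ![inr (some σ), inl (γ, !σ, 0, true), inl (γ, !σ, 0, false), inr (some σ)]
  | inr (some σ), _ => fun _ => inr (some σ)
  | inr none, true => ![inr (some true), inr (some false), inr none, inr none]
  | inr none, false => ![inl (false, false, 0, true), inl (false, false, 0, false),
      inl (true, false, 0, true), inl (true, false, 0, false)]

noncomputable def pr : St → Bool → Fin 4 → ℝ
  | inl (γ, σ, _, b), false =>
      ![p * (p * ind b), p * (1 - p * ind b), (1 - p) * rho γ σ, (1 - p) * (1 - rho γ σ)]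
  | inl (γ, σ, _, b), true =>
      ![ind b, (1 - ind b) * rho γ (!σ), (1 - ind b) * (1 - rho γ (!σ)), 0]
  | inr (some _), _ => ![1, 0, 0, 0]
  | inr none, true => ![5 / 16, 11 / 16, 0, 0]
  | inr none, false => ![1 / 2 * rho false false, 1 / 2 * (1 - rho false false),
      1 / 2 * rho true false, 1 / 2 * (1 - rho true false)]

theorem pr_nonneg (ω : St) (b : Bool) (t : Fin 4) : 0 ≤ pr ω b t := by
  rcases ω with ⟨γ, σ, s, c⟩ | _ | σ
  · cases b <;> cases γ <;> cases σ <;> cases c <;> fin_cases t <;> norm_num [pr, p, rho, ind]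
  · cases b <;> fin_cases t <;> norm_num [pr, rho]
  · cases b <;> fin_cases t <;> norm_num [pr]

theorem pr_sum (ω : St) (b : Bool) : ∑ t, pr ω b t = 1 := by
  rcases ω with ⟨γ, σ, s, c⟩ | _ | σ
  · cases b <;> simp [pr, Fin.sum_univ_four] <;> ring
  · cases b <;> simp [pr, Fin.sum_univ_four] <;> ring
  · cases b <;> simp [pr, Fin.sum_univ_four]

noncomputable def PP (i j : Bool) : Matrix St St ℝ := fun ω ω' =>
  ∑ t, if dest ω (bif ctlSg (sgOf ω) then i else j) t = ω' then
    pr ω (bif ctlSg (sgOf ω) then i else j) t else 0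

theorem PP_sum (i j : Bool) (ω : St) (F : St → ℝ) : ∑ ω', PP i j ω ω' * F ω' =
    ∑ t, pr ω (bif ctlSg (sgOf ω) then i else j) t *
      F (dest ω (bif ctlSg (sgOf ω) then i else j) t) := by
  simp only [PP, Finset.sum_mul]
  rw [Finset.sum_comm]
  refine Finset.sum_congr rfl fun t _ => ?_
  simp [ite_mul]

noncomputable def game : Game Sg St Bool Bool where
  f := sgOf
  g := fun _ _ ω => paySg (sgOf ω)
  P := PP
  P_stoch := fun i j => by
    rw [Matrix.mem_rowStochastic_iff_sum]
    refine ⟨fun ω ω' => Finset.sum_nonneg fun t _ => ?_, fun ω => ?_⟩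
    · split_ifs
      · exact pr_nonneg _ _ _
      · exact le_rfl
    · have := PP_sum i j ω fun _ => 1
      simpa [pr_sum] using this

theorem paySg0 (a : Sg) : 0 ≤ paySg a := by
  rcases a with ⟨γ, σ, s⟩ | _ | σ
  · cases σ <;> simp [paySg, ind]
  · simp [paySg]
  · cases σ <;> simp [paySg, ind]

theorem paySg1 (a : Sg) : paySg a ≤ 1 := by
  rcases a with ⟨γ, σ, s⟩ | _ | σ
  · cases σ <;> simp [paySg, ind]
  · simp [paySg]
  · cases σ <;> simp [paySg, ind]

def sig : Pos → Sg
  | inl (γ, σ, k) => inl (γ, σ, tag k)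
  | inr a => inr a

def st (b : Bool) : Pos → St
  | inl (γ, σ, k) => inl (γ, σ, tag k, b)
  | inr a => inr a

noncomputable def risk : Pos → ℝ
  | inl (γ, σ, k) => rho γ σ * p ^ k
  | inr _ => 0

noncomputable def qq : Pos → Bool → ℝ
  | inl _, false => p
  | inl (γ, σ, k), true => rho γ σ * p ^ k
  | inr (some _), _ => 1
  | inr none, true => 5 / 16
  | inr none, false => 1 / 2

def yy1 : Pos → Bool → Pos
  | inl (γ, σ, k), false => inl (γ, σ, k + 1)
  | inl (_, σ, _), true => inr (some σ)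
  | inr (some σ), _ => inr (some σ)
  | inr none, true => inr (some true)
  | inr none, false => inl (false, false, 0)

def yy2 : Pos → Bool → Pos
  | inl (γ, σ, _), false => inl (γ, σ, 0)
  | inl (γ, σ, _), true => inl (γ, !σ, 0)
  | inr (some σ), _ => inr (some σ)
  | inr none, true => inr (some false)
  | inr none, false => inl (true, false, 0)

theorem risk0 (γ σ : Bool) (k : ℕ) : 0 ≤ rho γ σ * p ^ k :=
  mul_nonneg (rho_pos _ _).le (pow_nonneg p_pos.le _)

theorem risk1 (γ σ : Bool) (k : ℕ) : rho γ σ * p ^ k ≤ 1 :=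
  mul_le_one₀ (rho_le _ _) (pow_nonneg p_pos.le _) (pow_le_one₀ p_pos.le p_le)

noncomputable def dyn : Dyn Pos where
  ctl := fun x => ctlSg (sig x)
  pay := fun x => paySg (sig x)
  pay0 := fun _ => paySg0 _
  pay1 := fun _ => paySg1 _
  q := qq
  q0 := by
    rintro (⟨γ, σ, k⟩ | _ | σ) (_ | _) <;> simp only [qq] <;>
      first | exact p_pos.le | exact risk0 _ _ _ | norm_num
  q1 := by
    rintro (⟨γ, σ, k⟩ | _ | σ) (_ | _) <;> simp only [qq] <;>
      first | exact p_le | exact risk1 _ _ _ | norm_num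
  y1 := yy1
  y2 := yy2

def nxt (x : Pos) (b : Bool) (a : Sg) : Pos :=
  if a = sig x then x else if a = sig (yy1 x b) then yy1 x b else yy2 x b

theorem c1 (x : Pos) (b : Bool) (h : sig (yy1 x b) = sig x) : yy1 x b = x := by
  rcases x with ⟨γ, σ, k⟩ | _ | σ <;> cases b <;> simp [yy1, sig, tag, up_ne] at h ⊢

theorem c2 (x : Pos) (b : Bool) (h : sig (yy2 x b) = sig x) : yy2 x b = x := by
  rcases x with ⟨γ, σ, k⟩ | _ | σ <;> cases b <;> simp [yy2, sig, tag] at h ⊢
  exact (tag_eq0 h.symm).symm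

theorem c3 (x : Pos) (b : Bool) (h : sig (yy2 x b) = sig (yy1 x b)) : yy2 x b = yy1 x b := by
  rcases x with ⟨γ, σ, k⟩ | _ | σ <;> cases b <;> simp [yy1, yy2, sig, tag] at h ⊢
  exact up_ne0 _ h.symm

noncomputable def model : Model game Pos where
  toDyn := dyn
  s1 := st true
  s2 := st false
  e := risk
  sig := sig
  hs1 := by rintro (⟨γ, σ, k⟩ | a) <;> rfl
  hs2 := by rintro (⟨γ, σ, k⟩ | a) <;> rfl
  g0 := fun _ _ _ => paySg0 _
  g1 := fun _ _ _ => paySg1 _
  hg1 := by rintro (⟨γ, σ, k⟩ | a) i j <;> rfl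
  hg2 := by rintro (⟨γ, σ, k⟩ | a) i j <;> rfl
  nx := nxt
  nx0 := fun x b => by simp [nxt]
  nx1 := fun x b => by
    change nxt x b (sig (yy1 x b)) = yy1 x b
    unfold nxt
    split_ifs with h
    · exact (c1 x b h).symm
    · rfl
    · contradiction
  nx2 := fun x b => by
    change nxt x b (sig (yy2 x b)) = yy2 x b
    unfold nxt
    split_ifs with h h'
    · exact (c2 x b h).symm
    · exact (c3 x b h').symm
    · rfl
  trans := fun x i j F => by
    change risk x * ∑ ω', PP i j (st true x) ω' * F ω' +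
      (1 - risk x) * ∑ ω', PP i j (st false x) ω' * F ω' = _
    have e1 : ∀ b, ctlSg (sgOf (st b x)) = ctlSg (sig x) := by
      rcases x with ⟨γ, σ, k⟩ | a <;> intro b <;> rfl
    rw [PP_sum, PP_sum, e1, e1]
    change _ = dyn.K _ x (bif ctlSg (sig x) then i else j)
    generalize (bif ctlSg (sig x) then i else j) = b
    rcases x with ⟨γ, σ, k⟩ | _ | σ <;> cases b <;>
      simp only [Dyn.K, dyn, qq, yy1, yy2, st, risk, pr, dest, Fin.sum_univ_four, ind, tag,
        Matrix.cons_val_zero, Matrix.cons_val_one, Matrix.cons_val, cond_true, cond_false] <;>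
      ring

noncomputable def p0 : stdSimplex ℝ St := ⟨Pi.single (inr none) 1, single_mem_stdSimplex ℝ _⟩

theorem hp0 (F : St → ℝ) : ∑ ω, p0.1 ω * F ω = model.ev F (inr none) := by
  have : ∑ ω, p0.1 ω * F ω = F (inr none) := by
    simp only [p0, Pi.single_apply, ite_mul, one_mul, zero_mul, Finset.sum_ite_eq',
      Finset.mem_univ, if_true]
  rw [this]
  simp [Model.ev, model, st, risk]

theorem L_p1 (u : Pos → ℝ) (γ : Bool) (k : ℕ) : dyn.L u (inl (γ, false, k)) =
    max (rho γ false * p ^ k * u (inr (some false)) + (1 - rho γ false * p ^ k) * u (inl (γ, true, 0)))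
      (p * u (inl (γ, false, k + 1)) + (1 - p) * u (inl (γ, false, 0))) := rfl

theorem L_p2 (u : Pos → ℝ) (γ : Bool) (k : ℕ) : dyn.L u (inl (γ, true, k)) =
    min (rho γ true * p ^ k * u (inr (some true)) + (1 - rho γ true * p ^ k) * u (inl (γ, false, 0)))
      (p * u (inl (γ, true, k + 1)) + (1 - p) * u (inl (γ, true, 0))) := rfl

theorem L_ab (u : Pos → ℝ) (σ : Bool) : dyn.L u (inr (some σ)) = u (inr (some σ)) := by
  simp [Dyn.L, Dyn.K, dyn, ctlSg, sig, qq, yy1, yy2]

theorem L_top (u : Pos → ℝ) : dyn.L u (inr none) =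
    min (5 / 16 * u (inr (some true)) + (1 - 5 / 16) * u (inr (some false)))
      (1 / 2 * u (inl (false, false, 0)) + (1 - 1 / 2) * u (inl (true, false, 0))) := rfl

theorem pay_p1 (γ : Bool) (k : ℕ) : dyn.pay (inl (γ, false, k)) = 0 := rfl
theorem pay_p2 (γ : Bool) (k : ℕ) : dyn.pay (inl (γ, true, k)) = 1 := rfl
theorem pay_a0 : dyn.pay (inr (some false)) = 0 := rfl
theorem pay_a1 : dyn.pay (inr (some true)) = 1 := rfl
theorem pay_top : dyn.pay (inr none) = 0 := rfl

end Pool.Agent.MP_3fd3f5_an.Ex
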