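import Pool.Agent.MP_3fd3f5_an.Model

namespace Pool.Agent.MP_3fd3f5_an

open Filter Topology

namespace Dyn

variable {X : Type} (D : Dyn X)

theorem exists_fix {lam : ℝ} (hl : 0 < lam) : ∃ w : X → ℝ, (∀ x, 0 ≤ w x) ∧ (∀ x, w x ≤ 1) ∧
    (∀ x, (1 + lam) * w x = lam * D.pay x + D.L w x) ∧
    ∀ u : X → ℝ, (∀ x, u x ≤ 1) → (∀ x, (1 + lam) * u x ≤ lam * D.pay x + D.L u x) →
      ∀ x, u x ≤ w x := by
  set S : Set (X → ℝ) := {u | (∀ x, u x ≤ 1) ∧ ∀ x, (1 + lam) * u x ≤ lam * D.pay x + D.L u x}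
    with hS
  have h0 : (fun _ => (0 : ℝ)) ∈ S := by
    refine ⟨fun _ => zero_le_one, fun x => ?_⟩
    rw [D.L_const]
    nlinarith [D.pay0 x]
  set w : X → ℝ := fun x => sSup ((fun u : X → ℝ => u x) '' S) with hw
  have hbdd : ∀ x, BddAbove ((fun u : X → ℝ => u x) '' S) := fun x =>
    ⟨1, by rintro _ ⟨u, hu, rfl⟩; exact hu.1 x⟩
  have hle : ∀ u ∈ S, ∀ x, u x ≤ w x := fun u hu x => le_csSup (hbdd x) ⟨u, hu, rfl⟩
  have hw1 : ∀ x, w x ≤ 1 := fun x =>
    csSup_le ⟨_, _, h0, rfl⟩ (by rintro _ ⟨u, hu, rfl⟩; exact hu.1 x)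
  have hp : (0 : ℝ) < 1 + lam := by linarith
  set T : X → ℝ := fun x => (lam * D.pay x + D.L w x) / (1 + lam) with hT
  have hwT : ∀ x, w x ≤ T x := fun x => by
    refine csSup_le ⟨_, _, h0, rfl⟩ ?_
    rintro _ ⟨u, hu, rfl⟩
    rw [hT, le_div_iff₀ hp]
    have := D.L_mono (hle u hu) x
    have := hu.2 x
    simp only
    linarith
  have hTS : T ∈ S := by
    refine ⟨fun x => ?_, fun x => ?_⟩
    · rw [hT, div_le_one hp]
      have := D.L_mono hw1 x
      rw [D.L_const] at this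
      nlinarith [D.pay1 x]
    · have := D.L_mono hwT x
      have e : (1 + lam) * T x = lam * D.pay x + D.L w x := by
        rw [hT]; field_simp
      linarith
  refine ⟨w, hle _ h0, hw1, fun x => ?_, fun u h1 h2 => hle u ⟨h1, h2⟩⟩
  rw [le_antisymm (hwT x) (hle T hTS x), hT]
  field_simp

theorem disc_bound {lam δ : ℝ} (hl : 0 < lam) (hl1 : lam < 1) {w : X → ℝ} (w0 : ∀ x, 0 ≤ w x)
    (w1 : ∀ x, w x ≤ 1) (hw : ∀ x, (1 + lam) * w x = lam * D.pay x + D.L w x) {h : ℕ → ℝ}
    (h0 : ∀ n, 0 ≤ h n) (hδ : ∀ n, h n ≤ δ) (hδ1 : δ ≤ 1) (d : ℕ → ℝ)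
    (hd : ∀ n, d n = ∏ k ∈ Finset.range n, (1 - lam * h k)) :
    ∀ (m n : ℕ) (x : X), |D.bw h (fun n => lam * d n * h n) m n x - d n * w x| ≤
      δ * (d n - d (n + m)) + d (n + m) := by
  have f0 : ∀ k, 0 ≤ 1 - lam * h k := fun k => by nlinarith [h0 k, hδ k]
  have d0 : ∀ n, 0 ≤ d n := fun n => by rw [hd]; exact Finset.prod_nonneg fun k _ => f0 k
  have ds : ∀ n, d (n + 1) = d n * (1 - lam * h n) := fun n => by
    rw [hd, hd, Finset.prod_range_succ]
  intro m
  induction m with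
  | zero =>
    intro n x
    simp only [bw, add_zero, sub_self, mul_zero, zero_add, zero_sub, abs_neg]
    rw [abs_of_nonneg (mul_nonneg (d0 n) (w0 x))]
    exact mul_le_of_le_one_right (d0 n) (w1 x)
  | succ m ih =>
    intro n x
    have e1 := ih (n + 1) x
    have e2 := D.L_abs (ih (n + 1)) x
    rw [D.L_smul (d0 _)] at e2
    rw [show n + 1 + m = n + (m + 1) by ring] at e1 e2
    have L0 : 0 ≤ D.L w x := by
      have := D.L_mono (u := fun _ => 0) w0 x
      rwa [D.L_const] at this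
    have L1 : D.L w x ≤ 1 := by
      have := D.L_mono (v := fun _ => 1) w1 x
      rwa [D.L_const] at this
    simp only [bw]
    set a := D.bw h (fun n => lam * d n * h n) m (n + 1) x
    set b := D.L (D.bw h (fun n => lam * d n * h n) m (n + 1)) x
    set E := δ * (d (n + 1) - d (n + (m + 1))) + d (n + (m + 1))
    have key : lam * d n * h n * D.pay x + (1 - h n) * a + h n * b - d n * w x =
        (1 - h n) * (a - d (n + 1) * w x) + h n * (b - d (n + 1) * D.L w x) +
          lam * d n * h n * (h n * (w x - D.L w x)) := by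
      rw [ds]
      linear_combination (-(d n * h n)) * hw x
    have hn1 : 0 ≤ 1 - h n := by linarith [hδ n]
    have c0 : 0 ≤ lam * d n * h n := mul_nonneg (mul_nonneg hl.le (d0 n)) (h0 n)
    have c1 : |h n * (w x - D.L w x)| ≤ δ := by
      rw [abs_mul, abs_of_nonneg (h0 n)]
      have : |w x - D.L w x| ≤ 1 := by
        rw [abs_le]; constructor <;> linarith [w0 x, w1 x]
      nlinarith [h0 n, hδ n]
    have fin : δ * (d n - d (n + (m + 1))) + d (n + (m + 1)) = E + lam * d n * h n * δ := by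
      simp only [E]; rw [ds]; ring
    rw [key, fin]
    have t1 := mul_le_mul_of_nonneg_left (abs_le.1 e1).1 hn1
    have t2 := mul_le_mul_of_nonneg_left (abs_le.1 e1).2 hn1
    have t3 := mul_le_mul_of_nonneg_left (abs_le.1 e2).1 (h0 n)
    have t4 := mul_le_mul_of_nonneg_left (abs_le.1 e2).2 (h0 n)
    have t5 := mul_le_mul_of_nonneg_left (abs_le.1 c1).1 c0
    have t6 := mul_le_mul_of_nonneg_left (abs_le.1 c1).2 c0
    rw [abs_le]; constructor <;> linarith

/-- Explicit Euler scheme for the Shapley operator with payoff scaled by `c`. -/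
def eul (c : ℝ) : List ℝ → X → ℝ
  | [], _ => 0
  | h :: l, x => (1 - h) * eul c l x + h * (c * D.pay x + D.L (eul c l) x)

def sq (l : List ℝ) : ℝ := (l.map fun h => h ^ 2).sum

theorem sq_nonneg' (l : List ℝ) : 0 ≤ sq l :=
  List.sum_nonneg (by simp only [List.mem_map]; rintro _ ⟨a, _, rfl⟩; positivity)

theorem eul_base {c : ℝ} (hc : 0 ≤ c) : ∀ l : List ℝ, (∀ h ∈ l, 0 < h ∧ h ≤ 1) →
    ∀ x, |D.eul c l x - 0| ≤ c * l.sum := by
  intro l
  induction l with
  | nil => intro _ x; simp [eul]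
  | cons h l ih =>
    intro hl x
    have hh := hl h (by simp)
    have e1 := ih (fun k hk => hl k (by simp [hk]))
    have e2 := D.L_abs e1 x
    rw [D.L_const] at e2
    simp only [eul, List.sum_cons]
    have hn1 : 0 ≤ 1 - h := by linarith [hh.2]
    have t1 := mul_le_mul_of_nonneg_left (abs_le.1 (e1 x)).1 hn1
    have t2 := mul_le_mul_of_nonneg_left (abs_le.1 (e1 x)).2 hn1
    have t3 := mul_le_mul_of_nonneg_left (abs_le.1 e2).1 hh.1.le
    have t4 := mul_le_mul_of_nonneg_left (abs_le.1 e2).2 hh.1.le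
    have t5 : 0 ≤ h * (c * D.pay x) := mul_nonneg hh.1.le (mul_nonneg hc (D.pay0 x))
    have t6 : h * (c * D.pay x) ≤ h * c :=
      mul_le_mul_of_nonneg_left (mul_le_of_le_one_right hc (D.pay1 x)) hh.1.le
    have t7 : 0 ≤ h * c := mul_nonneg hh.1.le hc
    rw [abs_le]; constructor <;> linarith

theorem sqrt_mix {θ R₁ R₂ R : ℝ} (t0 : 0 ≤ θ) (t1 : θ ≤ 1) (h1 : 0 ≤ R₁) (h2 : 0 ≤ R₂)
    (h : (1 - θ) * R₁ + θ * R₂ ≤ R) : (1 - θ) * √R₁ + θ * √R₂ ≤ √R := by
  apply Real.le_sqrt_of_sq_le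
  have e1 := Real.sq_sqrt h1
  have e2 := Real.sq_sqrt h2
  have : 0 ≤ θ * (1 - θ) * (√R₁ - √R₂) ^ 2 :=
    mul_nonneg (mul_nonneg t0 (sub_nonneg.2 t1)) (sq_nonneg _)
  nlinarith

theorem kob_step {c h k : ℝ} (hh : 0 < h) (hk : h ≤ k) (hk1 : k ≤ 1) (l l' : List ℝ) {a₁ a₂ : ℝ}
    (e1 : ∀ x, |D.eul c l x - D.eul c (k :: l') x| ≤ a₁)
    (e2 : ∀ x, |D.eul c l x - D.eul c l' x| ≤ a₂) (x : X) :
    |D.eul c (h :: l) x - D.eul c (k :: l') x| ≤ (1 - h / k) * a₁ + h / k * a₂ := by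
  have k0 : 0 < k := by linarith
  have e3 := D.L_abs e2 x
  have key : D.eul c (h :: l) x - D.eul c (k :: l') x =
      (1 - h / k) * (D.eul c l x - D.eul c (k :: l') x) +
        (h / k * (1 - k)) * (D.eul c l x - D.eul c l' x) +
        h * (D.L (D.eul c l) x - D.L (D.eul c l') x) := by
    simp only [eul]
    field_simp
    ring
  have c1 : 0 ≤ 1 - h / k := by rw [sub_nonneg, div_le_one k0]; exact hk
  have c2 : 0 ≤ h / k * (1 - k) := mul_nonneg (by positivity) (by linarith)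
  have c3 : h / k * a₂ = h / k * (1 - k) * a₂ + h * a₂ := by field_simp; ring
  rw [key, c3]
  have t1 := mul_le_mul_of_nonneg_left (abs_le.1 (e1 x)).1 c1
  have t2 := mul_le_mul_of_nonneg_left (abs_le.1 (e1 x)).2 c1
  have t3 := mul_le_mul_of_nonneg_left (abs_le.1 (e2 x)).1 c2
  have t4 := mul_le_mul_of_nonneg_left (abs_le.1 (e2 x)).2 c2
  have t5 := mul_le_mul_of_nonneg_left (abs_le.1 e3).1 hh.le
  have t6 := mul_le_mul_of_nonneg_left (abs_le.1 e3).2 hh.le
  rw [abs_le]; constructor <;> linarith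

theorem kob {c : ℝ} (hc : 0 ≤ c) : ∀ l : List ℝ, (∀ h ∈ l, 0 < h ∧ h ≤ 1) →
    ∀ l' : List ℝ, (∀ h ∈ l', 0 < h ∧ h ≤ 1) →
    ∀ x, |D.eul c l x - D.eul c l' x| ≤ c * √((l.sum - l'.sum) ^ 2 + sq l + sq l') := by
  have base : ∀ l : List ℝ, (∀ h ∈ l, 0 < h ∧ h ≤ 1) → ∀ x,
      |D.eul c l x - 0| ≤ c * √(l.sum ^ 2 + sq l) := by
    intro l hl x
    refine (D.eul_base hc l hl x).trans (mul_le_mul_of_nonneg_left ?_ hc)
    apply Real.le_sqrt_of_sq_le
    linarith [sq_nonneg' l]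
  intro l
  induction l with
  | nil =>
    intro _ l' hl' x
    have := base l' hl' x
    rw [abs_sub_comm]
    simpa [eul, sq] using this
  | cons h l ih =>
    intro hl l'
    have hh := hl h (by simp)
    have ih' := ih (fun k hk => hl k (by simp [hk]))
    induction l' with
    | nil =>
      intro _ x
      have := base _ hl x
      simpa [eul, sq] using this
    | cons k l' ih2 =>
      intro hl' x
      have hk := hl' k (by simp)
      have hl'' : ∀ h ∈ l', 0 < h ∧ h ≤ 1 := fun k hk => hl' k (by simp [hk])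
      have q1 := sq_nonneg' l
      have q2 := sq_nonneg' l'
      rcases le_total h k with hhk | hhk
      · refine (D.kob_step hh.1 hhk hk.2 l l' (ih' _ hl') (ih' _ hl'') x).trans ?_
        have := sqrt_mix (θ := h / k) (R₁ := (l.sum - (k :: l').sum) ^ 2 + sq l + sq (k :: l'))
          (R₂ := (l.sum - l'.sum) ^ 2 + sq l + sq l')
          (R := ((h :: l).sum - (k :: l').sum) ^ 2 + sq (h :: l) + sq (k :: l'))
          (div_nonneg hh.1.le hk.1.le) ((div_le_one hk.1).2 hhk)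
          (by have := sq_nonneg' (k :: l'); positivity) (by positivity) (by
            simp only [sq, List.sum_cons, List.map_cons]
            have e : h = h / k * k := by field_simp [hk.1.ne']
            set θ := h / k
            rw [e]
            nlinarith [sq_nonneg (θ * k)])
        nlinarith
      · rw [abs_sub_comm]
        refine (D.kob_step hk.1 hhk hh.2 l' l (a₁ := _) (a₂ := _)
          (fun x => by rw [abs_sub_comm]; exact ih2 hl'' x)
          (fun x => by rw [abs_sub_comm]; exact ih' _ hl'' x) x).trans ?_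
        have := sqrt_mix (θ := k / h) (R₁ := ((h :: l).sum - l'.sum) ^ 2 + sq (h :: l) + sq l')
          (R₂ := (l.sum - l'.sum) ^ 2 + sq l + sq l')
          (R := ((h :: l).sum - (k :: l').sum) ^ 2 + sq (h :: l) + sq (k :: l'))
          (div_nonneg hk.1.le hh.1.le) ((div_le_one hh.1).2 hhk)
          (by have := sq_nonneg' (h :: l); positivity) (by positivity) (by
            simp only [sq, List.sum_cons, List.map_cons]
            have e : k = k / h * h := by field_simp [hh.1.ne']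
            set θ := k / h
            rw [e]
            nlinarith [sq_nonneg (θ * h)])
        nlinarith

theorem sqrt_tri (a b A B : ℝ) (hA : 0 ≤ A) (hB : 0 ≤ B) :
    √((a - b) ^ 2 + A + B) ≤ √(a ^ 2 + A) + √(b ^ 2 + B) := by
  rw [Real.sqrt_le_left (by positivity)]
  have e1 := Real.sq_sqrt (show 0 ≤ a ^ 2 + A by positivity)
  have e2 := Real.sq_sqrt (show 0 ≤ b ^ 2 + B by positivity)
  have f1 : |a| ≤ √(a ^ 2 + A) := Real.abs_le_sqrt (by linarith)
  have f2 : |b| ≤ √(b ^ 2 + B) := Real.abs_le_sqrt (by linarith)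
  have f3 := mul_le_mul f1 f2 (abs_nonneg _) (Real.sqrt_nonneg _)
  rw [← abs_mul] at f3
  have := neg_abs_le (a * b)
  nlinarith

theorem exists_lim {c : ℝ} (hc : 0 ≤ c) (T : ℝ) (x : X) : ∃ W : ℝ, ∀ l : List ℝ,
    (∀ h ∈ l, 0 < h ∧ h ≤ 1) → |D.eul c l x - W| ≤ c * √((l.sum - T) ^ 2 + sq l) := by
  set S : Set ℝ := {r | ∃ l : List ℝ, (∀ h ∈ l, 0 < h ∧ h ≤ 1) ∧
    r = D.eul c l x - c * √((l.sum - T) ^ 2 + sq l)} with hS
  have cmp : ∀ l : List ℝ, (∀ h ∈ l, 0 < h ∧ h ≤ 1) → ∀ r ∈ S,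
      r ≤ D.eul c l x + c * √((l.sum - T) ^ 2 + sq l) := by
    rintro l hl _ ⟨l', hl', rfl⟩
    have e1 := (abs_le.1 (D.kob hc l hl l' hl' x)).1
    have e2 := sqrt_tri (l.sum - T) (l'.sum - T) _ _ (sq_nonneg' l) (sq_nonneg' l')
    rw [show l.sum - T - (l'.sum - T) = l.sum - l'.sum by ring] at e2
    have := mul_le_mul_of_nonneg_left e2 hc
    linarith
  refine ⟨sSup S, fun l hl => ?_⟩
  have e1 : D.eul c l x - c * √((l.sum - T) ^ 2 + sq l) ≤ sSup S :=
    le_csSup ⟨_, cmp l hl⟩ ⟨l, hl, rfl⟩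
  have e2 : sSup S ≤ D.eul c l x + c * √((l.sum - T) ^ 2 + sq l) :=
    csSup_le ⟨_, l, hl, rfl⟩ (cmp l hl)
  rw [abs_le]; constructor <;> linarith

theorem bw_eq_eul (c : ℝ) (h : ℕ → ℝ) : ∀ m n : ℕ,
    D.bw h (fun n => c * h n) m n = D.eul c ((List.range' n m).map h) := by
  intro m
  induction m with
  | zero => intro n; funext x; simp [bw, eul]
  | succ m ih =>
    intro n
    funext x
    simp only [bw, List.range'_succ, List.map_cons, eul, ih]
    ring

/-- Total payoff of the `r`-stage embedded discrete game. -/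
def U : ℕ → X → ℝ
  | 0, _ => 0
  | r + 1, x => D.pay x + D.L (U r) x

theorem eul_replicate {c : ℝ} (hc : 0 ≤ c) : ∀ n : ℕ,
    D.eul c (List.replicate n 1) = fun x => c * D.U n x := by
  intro n
  induction n with
  | zero => funext x; simp [eul, U]
  | succ n ih =>
    funext x
    simp only [List.replicate_succ, eul, ih, U, D.L_smul hc]
    ring

end Dyn

theorem dur_pos {t : ℕ → ℝ} (ht : StrictMono t) (n : ℕ) : 0 < dur t n :=
  sub_pos.2 (ht (Nat.lt_succ_self n))

theorem sum_dur {t : ℕ → ℝ} (h0 : t 0 = 0) (n : ℕ) : ∑ k ∈ Finset.range n, dur t k = t n := by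
  unfold dur
  rw [Finset.sum_range_sub, h0, sub_zero]

theorem list_sum_range (h : ℕ → ℝ) (n : ℕ) :
    ((List.range' 0 n).map h).sum = ∑ k ∈ Finset.range n, h k := by
  rw [← List.range_eq_range']
  rfl

variable {A Ω : Type} [Fintype Ω] [DecidableEq Ω]

namespace Model

variable {G : Game A Ω Bool Bool} {X : Type} (M : Model G X)

theorem isDiscLimit (x₀ : X) (p : stdSimplex ℝ Ω)
    (hp : ∀ F : Ω → ℝ, ∑ ω, p.1 ω * F ω = M.ev F x₀) {lam : ℝ} (hl : 0 < lam) (hl1 : lam < 1)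
    {w : X → ℝ} (w0 : ∀ x, 0 ≤ w x) (w1 : ∀ x, w x ≤ 1)
    (hw : ∀ x, (1 + lam) * w x = lam * M.pay x + M.L w x) : G.IsDiscLimit p lam (w x₀) := by
  intro ε hε
  refine ⟨min ε 1, lt_min hε one_pos, fun t t0 ht htop hδ => ?_⟩
  have h0 : ∀ n, 0 ≤ dur t n := fun n => (dur_pos ht n).le
  have h1 : ∀ n, dur t n ≤ 1 := fun n => (hδ n).trans (min_le_right _ _)
  set d : ℕ → ℝ := fun n => ∏ k ∈ Finset.range n, (1 - lam * dur t k) with hd
  have f0 : ∀ k, 0 ≤ 1 - lam * dur t k := fun k => by nlinarith [h0 k, h1 k]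
  have d0 : ∀ n, 0 ≤ d n := fun n => Finset.prod_nonneg fun k _ => f0 k
  have ds : ∀ n, d (n + 1) = d n * (1 - lam * dur t n) := fun n => Finset.prod_range_succ _ _
  have dz : d 0 = 1 := by simp [hd]
  have hsum : ∀ n, ∑ k ∈ Finset.range n, lam * d k * dur t k = 1 - d n := by
    intro n
    induction n with
    | zero => simp [dz]
    | succ n ih => rw [Finset.sum_range_succ, ih, ds]; ring
  have wn : ∀ n, 0 ≤ lam * d n * dur t n := fun n => mul_nonneg (mul_nonneg hl.le (d0 n)) (h0 n)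
  have hsm : Summable fun n => lam * d n * dur t n :=
    summable_of_sum_range_le (c := 1) wn fun n => by rw [hsum]; linarith [d0 n]
  have dexp : ∀ n, d n ≤ Real.exp (-(lam * t n)) := by
    intro n
    induction n with
    | zero => simp [dz, t0]
    | succ n ih =>
      rw [ds, show -(lam * t (n + 1)) = -(lam * t n) + -(lam * dur t n) by unfold dur; ring,
        Real.exp_add]
      exact mul_le_mul ih (by linarith [Real.add_one_le_exp (-(lam * dur t n))]) (f0 n)
        (Real.exp_pos _).le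
  have dlim : Tendsto d atTop (𝓝 0) :=
    tendsto_of_tendsto_of_tendsto_of_le_of_le tendsto_const_nhds
      (Real.tendsto_exp_neg_atTop_nhds_zero.comp (htop.const_mul_atTop hl)) d0 dexp
  obtain ⟨v, hv, hlim⟩ := M.exists_value h0 h1 wn hsm x₀ p hp
  refine ⟨v, hv, ?_⟩
  have hb := fun N => M.disc_bound hl hl1 w0 w1 hw h0 hδ (min_le_right _ _) d (fun _ => rfl) N 0 x₀
  simp only [dz, one_mul, zero_add] at hb
  have l1 : Tendsto (fun N => |M.bw (dur t) (fun n => lam * d n * dur t n) N 0 x₀ - w x₀|) atTop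
      (𝓝 |v - w x₀|) := (hlim.sub_const _).abs
  have l2 : Tendsto (fun N => min ε 1 * (1 - d N) + d N) atTop (𝓝 (min ε 1 * (1 - 0) + 0)) :=
    ((dlim.const_sub 1).const_mul _).add dlim
  have := le_of_tendsto_of_tendsto' l1 l2 hb
  linarith [min_le_left ε 1]

theorem exists_horLimit (x₀ : X) (p : stdSimplex ℝ Ω)
    (hp : ∀ F : Ω → ℝ, ∑ ω, p.1 ω * F ω = M.ev F x₀) {T : ℝ} (hT : 0 < T) :
    ∃ W, G.IsHorLimit p T W ∧ ∀ n : ℕ, T = n → |M.U n x₀ / n - W| ≤ √n / n := by
  have hc : (0 : ℝ) ≤ 1 / T := by positivity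
  obtain ⟨W, hW⟩ := M.exists_lim hc T x₀
  refine ⟨W, fun ε hε => ?_, fun n hn => ?_⟩
  · refine ⟨min (ε ^ 2 * T) 1, lt_min (by positivity) one_pos, fun t t0 ht htop hδ => ?_⟩
    have h0 : ∀ n, 0 ≤ dur t n := fun n => (dur_pos ht n).le
    have h1 : ∀ n, dur t n ≤ 1 := fun n => (hδ n).trans (min_le_right _ _)
    have tT : ∀ n, t n ≤ T := fun n => ht.monotone.ge_of_tendsto htop n
    have hsm : Summable fun n => 1 / T * dur t n :=
      (summable_of_sum_range_le (c := T) h0 fun n => by rw [sum_dur t0]; exact tT n).mul_left _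
    obtain ⟨v, hv, hlim⟩ := M.exists_value h0 h1 (fun n => mul_nonneg hc (h0 n)) hsm x₀ p hp
    refine ⟨v, hv, ?_⟩
    have hb : ∀ N, |M.bw (dur t) (fun n => 1 / T * dur t n) N 0 x₀ - W| ≤
        1 / T * √((t N - T) ^ 2 + (ε * T) ^ 2) := by
      intro N
      rw [M.bw_eq_eul]
      refine (hW _ ?_).trans (mul_le_mul_of_nonneg_left (Real.sqrt_le_sqrt ?_) hc)
      · simp only [List.mem_map]
        rintro _ ⟨k, _, rfl⟩
        exact ⟨dur_pos ht k, h1 k⟩
      · rw [list_sum_range, sum_dur t0]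
        have : Dyn.sq ((List.range' 0 N).map (dur t)) ≤ (ε * T) ^ 2 := by
          unfold Dyn.sq
          rw [List.map_map, list_sum_range]
          calc _ ≤ ∑ k ∈ Finset.range N, ε ^ 2 * T * dur t k := by
                refine Finset.sum_le_sum fun k _ => ?_
                have := (hδ k).trans (min_le_left _ _)
                simp only [Function.comp]
                nlinarith [h0 k]
            _ = ε ^ 2 * T * t N := by rw [← Finset.mul_sum, sum_dur t0]
            _ ≤ ε ^ 2 * T * T := mul_le_mul_of_nonneg_left (tT N) (by positivity)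
            _ = _ := by ring
        linarith
    have l1 : Tendsto (fun N => |M.bw (dur t) (fun n => 1 / T * dur t n) N 0 x₀ - W|) atTop
        (𝓝 |v - W|) := (hlim.sub_const _).abs
    have l2 : Tendsto (fun N => 1 / T * √((t N - T) ^ 2 + (ε * T) ^ 2)) atTop
        (𝓝 (1 / T * √((T - T) ^ 2 + (ε * T) ^ 2))) :=
      ((((htop.sub_const T).pow 2).add_const _).sqrt).const_mul _
    have := le_of_tendsto_of_tendsto' l1 l2 hb
    rw [sub_self, zero_pow two_ne_zero, zero_add, Real.sqrt_sq (by positivity)] at this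
    calc _ ≤ _ := this
      _ = ε := by field_simp
  · have := hW (List.replicate n 1) (by
      intro h hh
      rw [List.eq_of_mem_replicate hh]; exact ⟨one_pos, le_rfl⟩)
    rw [M.eul_replicate hc] at this
    subst hn
    simpa [Dyn.sq, div_eq_inv_mul] using this

end Model

end Pool.Agent.MP_3fd3f5_an
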