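import Pool.Agent.MP_3fd3f5_an.Defs

namespace Pool.Agent.MP_3fd3f5_an

open Filter Topology

/-- Perfect-information dynamics on a set of positions (beliefs). -/
structure Dyn (X : Type) where
  ctl : X → Bool
  pay : X → ℝ
  pay0 : ∀ x, 0 ≤ pay x
  pay1 : ∀ x, pay x ≤ 1
  q : X → Bool → ℝ
  q0 : ∀ x b, 0 ≤ q x b
  q1 : ∀ x b, q x b ≤ 1
  y1 : X → Bool → X
  y2 : X → Bool → X

namespace Dyn

variable {X : Type} (D : Dyn X)

def K (u : X → ℝ) (x : X) (b : Bool) : ℝ := D.q x b * u (D.y1 x b) + (1 - D.q x b) * u (D.y2 x b)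

def L (u : X → ℝ) (x : X) : ℝ :=
  bif D.ctl x then max (D.K u x true) (D.K u x false) else min (D.K u x true) (D.K u x false)

def act (x : X) (i j : Bool) : Bool := bif D.ctl x then i else j

theorem K_le {u v : X → ℝ} {a : ℝ} (h : ∀ x, u x ≤ v x + a) (x : X) (b : Bool) :
    D.K u x b ≤ D.K v x b + a := by
  unfold K
  have h1 := mul_le_mul_of_nonneg_left (h (D.y1 x b)) (D.q0 x b)
  have h2 := mul_le_mul_of_nonneg_left (h (D.y2 x b)) (sub_nonneg.2 (D.q1 x b))
  linarith

theorem L_le {u v : X → ℝ} {a : ℝ} (h : ∀ x, u x ≤ v x + a) (x : X) :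
    D.L u x ≤ D.L v x + a := by
  have h1 := D.K_le h x true
  have h2 := D.K_le h x false
  unfold L
  cases D.ctl x
  · simp only [cond_false]
    rcases le_total (D.K v x true) (D.K v x false) with h3 | h3
    · rw [min_eq_left h3]; exact (min_le_left _ _).trans h1
    · rw [min_eq_right h3]; exact (min_le_right _ _).trans h2
  · simp only [cond_true]
    refine max_le (h1.trans ?_) (h2.trans ?_)
    · linarith [le_max_left (D.K v x true) (D.K v x false)]
    · linarith [le_max_right (D.K v x true) (D.K v x false)]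

theorem L_mono {u v : X → ℝ} (h : ∀ x, u x ≤ v x) (x : X) : D.L u x ≤ D.L v x := by
  have := D.L_le (a := 0) (u := u) (v := v) (fun x => by simpa using h x) x
  simpa using this

theorem L_const (a : ℝ) (x : X) : D.L (fun _ => a) x = a := by
  have : ∀ b, D.K (fun _ => a) x b = a := fun b => by unfold K; ring
  unfold L
  cases D.ctl x <;> simp [this]

theorem L_smul {c : ℝ} (hc : 0 ≤ c) (u : X → ℝ) (x : X) :
    D.L (fun y => c * u y) x = c * D.L u x := by
  have : ∀ b, D.K (fun y => c * u y) x b = c * D.K u x b := fun b => by unfold K; ring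
  unfold L
  cases D.ctl x
  · simp only [cond_false, this]; exact (mul_min_of_nonneg _ _ hc).symm
  · simp only [cond_true, this]; exact (mul_max_of_nonneg _ _ hc).symm

theorem L_abs {u v : X → ℝ} {a : ℝ} (h : ∀ x, |u x - v x| ≤ a) (x : X) :
    |D.L u x - D.L v x| ≤ a := by
  have h1 := D.L_le (u := u) (v := v) (a := a) (fun x => by linarith [(abs_le.1 (h x)).2]) x
  have h2 := D.L_le (u := v) (v := u) (a := a) (fun x => by linarith [(abs_le.1 (h x)).1]) x
  rw [abs_le]; constructor <;> linarith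

theorem exists_best1 (u : X → ℝ) (x : X) : ∃ i, ∀ j, D.L u x ≤ D.K u x (D.act x i j) := by
  unfold L act
  cases D.ctl x
  · refine ⟨true, fun j => ?_⟩
    cases j
    · exact min_le_right _ _
    · exact min_le_left _ _
  · rcases le_total (D.K u x true) (D.K u x false) with h | h
    · exact ⟨false, fun _ => by simp [h]⟩
    · exact ⟨true, fun _ => by simp [h]⟩

theorem exists_best2 (u : X → ℝ) (x : X) : ∃ j, ∀ i, D.K u x (D.act x i j) ≤ D.L u x := by
  unfold L act
  cases D.ctl x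
  · rcases le_total (D.K u x true) (D.K u x false) with h | h
    · exact ⟨true, fun _ => by simp [h]⟩
    · exact ⟨false, fun _ => by simp [h]⟩
  · refine ⟨true, fun i => ?_⟩
    cases i
    · exact le_max_right _ _
    · exact le_max_left _ _

/-- Backward induction: value with `m` stages left, starting at stage `n`. -/
def bw (h w : ℕ → ℝ) : ℕ → ℕ → X → ℝ
  | 0, _, _ => 0
  | m + 1, n, x => w n * D.pay x + (1 - h n) * bw h w m (n + 1) x + h n * D.L (bw h w m (n + 1)) x

end Dyn

variable {A Ω : Type} [Fintype Ω] [DecidableEq Ω]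

/-- A representation of the beliefs of a game with public signals by positions. -/
structure Model (G : Game A Ω Bool Bool) (X : Type) extends Dyn X where
  s1 : X → Ω
  s2 : X → Ω
  e : X → ℝ
  sig : X → A
  hs1 : ∀ x, G.f (s1 x) = sig x
  hs2 : ∀ x, G.f (s2 x) = sig x
  g0 : ∀ i j ω, 0 ≤ G.g i j ω
  g1 : ∀ i j ω, G.g i j ω ≤ 1
  hg1 : ∀ x i j, G.g i j (s1 x) = pay x
  hg2 : ∀ x i j, G.g i j (s2 x) = pay x
  nx : X → Bool → A → X
  nx0 : ∀ x b, nx x b (sig x) = x
  nx1 : ∀ x b, nx x b (sig (y1 x b)) = y1 x b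
  nx2 : ∀ x b, nx x b (sig (y2 x b)) = y2 x b
  trans : ∀ x i j (F : Ω → ℝ),
    e x * ∑ ω', G.P i j (s1 x) ω' * F ω' + (1 - e x) * ∑ ω', G.P i j (s2 x) ω' * F ω' =
      toDyn.K (fun y => e y * F (s1 y) + (1 - e y) * F (s2 y)) x (toDyn.act x i j)

theorem step_sum {I J : Type} (G : Game A Ω I J) (h : ℝ) (i : I) (j : J) (ω : Ω) (F : Ω → ℝ) :
    ∑ ω', G.step h i j ω ω' * F ω' = (1 - h) * F ω + h * ∑ ω', G.P i j ω ω' * F ω' := by
  have : ∀ ω', G.step h i j ω ω' * F ω' =
      (1 - h) * (if ω = ω' then F ω' else 0) + h * (G.P i j ω ω' * F ω') := by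
    intro ω'
    simp only [Game.step, Matrix.add_apply, Matrix.smul_apply, Matrix.sub_apply, Matrix.one_apply,
      smul_eq_mul]
    split_ifs <;> ring
  simp only [this, Finset.sum_add_distrib, ← Finset.mul_sum]
  simp

theorem mix_bounds {I J : Type} [Fintype I] [Fintype J] (s : stdSimplex ℝ I) (t : stdSimplex ℝ J)
    (F : I → J → ℝ) (a b : ℝ) (ha : ∀ i j, s.1 i ≠ 0 → t.1 j ≠ 0 → a ≤ F i j)
    (hb : ∀ i j, s.1 i ≠ 0 → t.1 j ≠ 0 → F i j ≤ b) :
    a ≤ ∑ i, ∑ j, s.1 i * t.1 j * F i j ∧ ∑ i, ∑ j, s.1 i * t.1 j * F i j ≤ b := by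
  have hc : ∀ c : ℝ, ∑ i, ∑ j, s.1 i * t.1 j * c = c := by
    intro c
    simp only [← Finset.sum_mul, ← Finset.mul_sum, t.2.2, s.2.2, mul_one, one_mul]
  constructor
  · rw [← hc a]
    refine Finset.sum_le_sum fun i _ => Finset.sum_le_sum fun j _ => ?_
    by_cases hi : s.1 i = 0
    · simp [hi]
    by_cases hj : t.1 j = 0
    · simp [hj]
    exact mul_le_mul_of_nonneg_left (ha i j hi hj) (mul_nonneg (s.2.1 i) (t.2.1 j))
  · rw [← hc b]
    refine Finset.sum_le_sum fun i _ => Finset.sum_le_sum fun j _ => ?_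
    by_cases hi : s.1 i = 0
    · simp [hi]
    by_cases hj : t.1 j = 0
    · simp [hj]
    exact mul_le_mul_of_nonneg_left (hb i j hi hj) (mul_nonneg (s.2.1 i) (t.2.1 j))

theorem stagePay_bounds {I J : Type} [Fintype I] [Fintype J] (G : Game A Ω I J)
    (g0 : ∀ i j ω, 0 ≤ G.g i j ω) (g1 : ∀ i j ω, G.g i j ω ≤ 1) {h : ℕ → ℝ}
    (h0 : ∀ n, 0 ≤ h n) (h1 : ∀ n, h n ≤ 1) (σ : Strategy A I J I) (τ : Strategy A I J J) :
    ∀ (m : ℕ) (H : List (A × I × J)) (ω : Ω),
      0 ≤ G.stagePay h σ τ m H ω ∧ G.stagePay h σ τ m H ω ≤ 1 := by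
  intro m
  induction m with
  | zero =>
    intro H ω
    exact mix_bounds _ _ _ _ _ (fun i j _ _ => g0 i j ω) (fun i j _ _ => g1 i j ω)
  | succ m ih =>
    intro H ω
    have key : ∀ i j, 0 ≤ ∑ ω', G.step (h H.length) i j ω ω' *
        G.stagePay h σ τ m ((G.f ω, i, j) :: H) ω' ∧ ∑ ω', G.step (h H.length) i j ω ω' *
        G.stagePay h σ τ m ((G.f ω, i, j) :: H) ω' ≤ 1 := by
      intro i j
      rw [step_sum]
      have hP := Matrix.mem_rowStochastic_iff_sum.1 (G.P_stoch i j)
      have a0 : 0 ≤ ∑ ω', G.P i j ω ω' * G.stagePay h σ τ m ((G.f ω, i, j) :: H) ω' :=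
        Finset.sum_nonneg fun ω' _ => mul_nonneg (hP.1 _ _) (ih _ _).1
      have a1 : ∑ ω', G.P i j ω ω' * G.stagePay h σ τ m ((G.f ω, i, j) :: H) ω' ≤ 1 := by
        rw [← hP.2 ω]
        exact Finset.sum_le_sum fun ω' _ => mul_le_of_le_one_right (hP.1 _ _) (ih _ _).2
      have b := ih ((G.f ω, i, j) :: H) ω
      have c0 := h0 H.length
      have c1 := h1 H.length
      constructor <;> nlinarith [b.1, b.2]
    exact mix_bounds _ _ _ _ _ (fun i j _ _ => (key i j).1) (fun i j _ _ => (key i j).2)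

/-- Weighted partial sums of stage payoffs. -/
noncomputable def Game.part {I J : Type} [Fintype I] [Fintype J] (G : Game A Ω I J) (h w : ℕ → ℝ)
    (σ : Strategy A I J I) (τ : Strategy A I J J) (m : ℕ) (H : List (A × I × J)) (ω : Ω) : ℝ :=
  ∑ k ∈ Finset.range m, w (H.length + k) * G.stagePay h σ τ k H ω

theorem part_succ {I J : Type} [Fintype I] [Fintype J] (G : Game A Ω I J) (h w : ℕ → ℝ)
    (σ : Strategy A I J I) (τ : Strategy A I J J) (m : ℕ) (H : List (A × I × J)) (ω : Ω) :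
    G.part h w σ τ (m + 1) H ω = ∑ i, ∑ j, (σ H (G.f ω)).1 i * (τ H (G.f ω)).1 j *
      (w H.length * G.g i j ω +
        ∑ ω', G.step (h H.length) i j ω ω' * G.part h w σ τ m ((G.f ω, i, j) :: H) ω') := by
  unfold Game.part
  rw [Finset.sum_range_succ']
  simp only [Game.stagePay, mul_add, Finset.sum_add_distrib, Finset.mul_sum, add_zero,
    List.length_cons]
  rw [add_comm]
  congr 1
  · refine Finset.sum_congr rfl fun i _ => Finset.sum_congr rfl fun j _ => by ring
  · rw [Finset.sum_comm]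
    refine Finset.sum_congr rfl fun i _ => ?_
    rw [Finset.sum_comm]
    refine Finset.sum_congr rfl fun j _ => ?_
    rw [Finset.sum_comm]
    refine Finset.sum_congr rfl fun ω' _ => Finset.sum_congr rfl fun k _ => ?_
    rw [show H.length + (k + 1) = H.length + 1 + k by ring]
    ring

namespace Model

variable {G : Game A Ω Bool Bool} {X : Type} (M : Model G X)

def ev (F : Ω → ℝ) (x : X) : ℝ := M.e x * F (M.s1 x) + (1 - M.e x) * F (M.s2 x)

theorem ev_part_succ (h w : ℕ → ℝ) (σ τ : Strategy A Bool Bool Bool) (m : ℕ)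
    (H : List (A × Bool × Bool)) (x : X) :
    M.ev (G.part h w σ τ (m + 1) H) x = ∑ i, ∑ j, (σ H (M.sig x)).1 i * (τ H (M.sig x)).1 j *
      (w H.length * M.pay x +
        (1 - h H.length) * M.ev (G.part h w σ τ m ((M.sig x, i, j) :: H)) x +
        h H.length * M.K (M.ev (G.part h w σ τ m ((M.sig x, i, j) :: H))) x (M.act x i j)) := by
  unfold ev
  simp only [part_succ, M.hs1, M.hs2, M.hg1, M.hg2, step_sum, Finset.mul_sum,
    ← Finset.sum_add_distrib]
  refine Finset.sum_congr rfl fun i _ => Finset.sum_congr rfl fun j _ => ?_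
  rw [← M.trans]
  simp only [← Finset.mul_sum]
  ring

def pos (x₀ : X) : List (A × Bool × Bool) → A → X
  | [], _ => x₀
  | (a', i, j) :: H, a => M.nx (pos x₀ H a') (M.act (pos x₀ H a') i j) a

noncomputable def pure (b : Bool) : stdSimplex ℝ Bool :=
  ⟨Pi.single b 1, single_mem_stdSimplex ℝ b⟩

theorem pure_ne {b c : Bool} (h : (pure b).1 c ≠ 0) : c = b := by
  by_contra hc
  exact h (Pi.single_eq_of_ne hc _)

theorem guarantee1 {h : ℕ → ℝ} (w : ℕ → ℝ) (h0 : ∀ n, 0 ≤ h n) (h1 : ∀ n, h n ≤ 1) (x₀ : X)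
    (N : ℕ) : ∃ σ : Strategy A Bool Bool Bool, ∀ τ,
      M.bw h w N 0 x₀ ≤ M.ev (G.part h w σ τ N []) x₀ := by
  choose best hbest using M.exists_best1
  refine ⟨fun H a => pure (best (M.bw h w (N - H.length - 1) (H.length + 1)) (M.pos x₀ H a)),
    fun τ => ?_⟩
  set σ : Strategy A Bool Bool Bool :=
    fun H a => pure (best (M.bw h w (N - H.length - 1) (H.length + 1)) (M.pos x₀ H a)) with hσ
  have key : ∀ (m : ℕ) (H : List (A × Bool × Bool)) (x : X), H.length + m = N →
      M.pos x₀ H (M.sig x) = x → M.bw h w m H.length x ≤ M.ev (G.part h w σ τ m H) x := by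
    intro m
    induction m with
    | zero => intro H x _ _; simp [Dyn.bw, ev, Game.part]
    | succ m ih =>
      intro H x hN hx
      rw [ev_part_succ]
      refine (mix_bounds _ _ _ _ (⨆ i, ⨆ j, (w H.length * M.pay x +
        (1 - h H.length) * M.ev (G.part h w σ τ m ((M.sig x, i, j) :: H)) x +
        h H.length * M.K (M.ev (G.part h w σ τ m ((M.sig x, i, j) :: H))) x (M.act x i j)))
        (fun i j hi _ => ?_) (fun i j _ _ => ?_)).1
      · have hi' : i = best (M.bw h w m (H.length + 1)) x := by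
          have := pure_ne hi
          rwa [hx, show N - H.length - 1 = m by omega] at this
        have hb := hbest (M.bw h w m (H.length + 1)) x j
        rw [← hi'] at hb
        have hl : ((M.sig x, i, j) :: H).length + m = N := by simp; omega
        have e0 := ih ((M.sig x, i, j) :: H) x hl (by simp [pos, hx, M.nx0])
        have e1 := ih ((M.sig x, i, j) :: H) (M.y1 x (M.act x i j)) hl (by simp [pos, hx, M.nx1])
        have e2 := ih ((M.sig x, i, j) :: H) (M.y2 x (M.act x i j)) hl (by simp [pos, hx, M.nx2])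
        simp only [List.length_cons] at e0 e1 e2
        have hK : M.K (M.bw h w m (H.length + 1)) x (M.act x i j) ≤
            M.K (M.ev (G.part h w σ τ m ((M.sig x, i, j) :: H))) x (M.act x i j) := by
          unfold Dyn.K
          have a1 := mul_le_mul_of_nonneg_left e1 (M.q0 x (M.act x i j))
          have a2 := mul_le_mul_of_nonneg_left e2 (sub_nonneg.2 (M.q1 x (M.act x i j)))
          linarith
        simp only [Dyn.bw]
        have a1 := mul_le_mul_of_nonneg_left e0 (sub_nonneg.2 (h1 H.length))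
        have a2 := mul_le_mul_of_nonneg_left (hb.trans hK) (h0 H.length)
        linarith
      · exact le_ciSup_of_le (Set.finite_range _).bddAbove i
          (le_ciSup_of_le (Set.finite_range _).bddAbove j le_rfl)
  simpa using key N [] x₀ (by simp) rfl

theorem guarantee2 {h : ℕ → ℝ} (w : ℕ → ℝ) (h0 : ∀ n, 0 ≤ h n) (h1 : ∀ n, h n ≤ 1) (x₀ : X)
    (N : ℕ) : ∃ τ : Strategy A Bool Bool Bool, ∀ σ,
      M.ev (G.part h w σ τ N []) x₀ ≤ M.bw h w N 0 x₀ := by
  choose best hbest using M.exists_best2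
  refine ⟨fun H a => pure (best (M.bw h w (N - H.length - 1) (H.length + 1)) (M.pos x₀ H a)),
    fun σ => ?_⟩
  set τ : Strategy A Bool Bool Bool :=
    fun H a => pure (best (M.bw h w (N - H.length - 1) (H.length + 1)) (M.pos x₀ H a)) with hτ
  have key : ∀ (m : ℕ) (H : List (A × Bool × Bool)) (x : X), H.length + m = N →
      M.pos x₀ H (M.sig x) = x → M.ev (G.part h w σ τ m H) x ≤ M.bw h w m H.length x := by
    intro m
    induction m with
    | zero => intro H x _ _; simp [Dyn.bw, ev, Game.part]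
    | succ m ih =>
      intro H x hN hx
      rw [ev_part_succ]
      refine (mix_bounds _ _ _ (⨅ i, ⨅ j, (w H.length * M.pay x +
        (1 - h H.length) * M.ev (G.part h w σ τ m ((M.sig x, i, j) :: H)) x +
        h H.length * M.K (M.ev (G.part h w σ τ m ((M.sig x, i, j) :: H))) x (M.act x i j))) _
        (fun i j _ _ => ?_) (fun i j _ hj => ?_)).2
      · exact ciInf_le_of_le (Set.finite_range _).bddBelow i
          (ciInf_le_of_le (Set.finite_range _).bddBelow j le_rfl)
      · have hj' : j = best (M.bw h w m (H.length + 1)) x := by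
          have := pure_ne hj
          rwa [hx, show N - H.length - 1 = m by omega] at this
        have hb := hbest (M.bw h w m (H.length + 1)) x i
        rw [← hj'] at hb
        have hl : ((M.sig x, i, j) :: H).length + m = N := by simp; omega
        have e0 := ih ((M.sig x, i, j) :: H) x hl (by simp [pos, hx, M.nx0])
        have e1 := ih ((M.sig x, i, j) :: H) (M.y1 x (M.act x i j)) hl (by simp [pos, hx, M.nx1])
        have e2 := ih ((M.sig x, i, j) :: H) (M.y2 x (M.act x i j)) hl (by simp [pos, hx, M.nx2])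
        simp only [List.length_cons] at e0 e1 e2
        have hK : M.K (M.ev (G.part h w σ τ m ((M.sig x, i, j) :: H))) x (M.act x i j) ≤
            M.K (M.bw h w m (H.length + 1)) x (M.act x i j) := by
          unfold Dyn.K
          have a1 := mul_le_mul_of_nonneg_left e1 (M.q0 x (M.act x i j))
          have a2 := mul_le_mul_of_nonneg_left e2 (sub_nonneg.2 (M.q1 x (M.act x i j)))
          linarith
        simp only [Dyn.bw]
        have a1 := mul_le_mul_of_nonneg_left e0 (sub_nonneg.2 (h1 H.length))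
        have a2 := mul_le_mul_of_nonneg_left (hK.trans hb) (h0 H.length)
        linarith
  simpa using key N [] x₀ (by simp) rfl

/-- The value exists and is squeezed by the backward-induction values. -/
theorem exists_value {h w : ℕ → ℝ} (h0 : ∀ n, 0 ≤ h n) (h1 : ∀ n, h n ≤ 1) (w0 : ∀ n, 0 ≤ w n)
    (hw : Summable w) (x₀ : X) (p : stdSimplex ℝ Ω)
    (hp : ∀ F : Ω → ℝ, ∑ ω, p.1 ω * F ω = M.ev F x₀) :
    ∃ v, IsValue (G.payoff p h w) v ∧ Tendsto (fun N => M.bw h w N 0 x₀) atTop (𝓝 v) := by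
  have hpay : ∀ σ τ N, M.ev (G.part h w σ τ N []) x₀ ≤ G.payoff p h w σ τ ∧
      G.payoff p h w σ τ ≤ M.ev (G.part h w σ τ N []) x₀ + ∑' k, w (k + N) := by
    intro σ τ N
    set E : ℕ → ℝ := fun n => ∑ ω, p.1 ω * G.stagePay h σ τ n [] ω with hE
    have hE0 : ∀ n, 0 ≤ E n := fun n => Finset.sum_nonneg fun ω _ =>
      mul_nonneg (p.2.1 ω) (stagePay_bounds G M.g0 M.g1 h0 h1 σ τ n [] ω).1
    have hE1 : ∀ n, E n ≤ 1 := fun n => by
      rw [← p.2.2]
      exact Finset.sum_le_sum fun ω _ => mul_le_of_le_one_right (p.2.1 ω)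
        (stagePay_bounds G M.g0 M.g1 h0 h1 σ τ n [] ω).2
    have hs : Summable fun n => w n * E n :=
      Summable.of_nonneg_of_le (fun n => mul_nonneg (w0 n) (hE0 n))
        (fun n => mul_le_of_le_one_right (w0 n) (hE1 n)) hw
    have e1 : M.ev (G.part h w σ τ N []) x₀ = ∑ n ∈ Finset.range N, w n * E n := by
      rw [← hp]
      simp only [Game.part, hE, Finset.mul_sum, List.length_nil, zero_add]
      rw [Finset.sum_comm]
      refine Finset.sum_congr rfl fun n _ => Finset.sum_congr rfl fun ω _ => by ring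
    have e2 : G.payoff p h w σ τ = ∑ n ∈ Finset.range N, w n * E n +
        ∑' k, w (k + N) * E (k + N) := (hs.sum_add_tsum_nat_add N).symm
    rw [e1, e2]
    constructor
    · have : 0 ≤ ∑' k, w (k + N) * E (k + N) := tsum_nonneg fun k => mul_nonneg (w0 _) (hE0 _)
      linarith
    · have := ((summable_nat_add_iff N).2 hs).tsum_le_tsum
        (fun k => mul_le_of_le_one_right (w0 (k + N)) (hE1 (k + N)))
        ((summable_nat_add_iff N).2 hw)
      linarith
  have g1 : ∀ N, ∃ σ, ∀ τ, M.bw h w N 0 x₀ ≤ G.payoff p h w σ τ := fun N => by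
    obtain ⟨σ, hσ⟩ := M.guarantee1 w h0 h1 x₀ N
    exact ⟨σ, fun τ => (hσ τ).trans (hpay σ τ N).1⟩
  have g2 : ∀ N, ∃ τ, ∀ σ, G.payoff p h w σ τ ≤ M.bw h w N 0 x₀ + ∑' k, w (k + N) := fun N => by
    obtain ⟨τ, hτ⟩ := M.guarantee2 w h0 h1 x₀ N
    exact ⟨τ, fun σ => (hpay σ τ N).2.trans (by linarith [hτ σ])⟩
  have cmp : ∀ N N', M.bw h w N 0 x₀ ≤ M.bw h w N' 0 x₀ + ∑' k, w (k + N') := fun N N' => by
    obtain ⟨σ, hσ⟩ := g1 N
    obtain ⟨τ, hτ⟩ := g2 N'
    exact (hσ τ).trans (hτ σ)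
  have hb : BddAbove (Set.range fun N => M.bw h w N 0 x₀) :=
    ⟨_, by rintro _ ⟨N, rfl⟩; exact cmp N 0⟩
  have ht : Tendsto (fun N => ∑' k, w (k + N)) atTop (𝓝 0) := tendsto_sum_nat_add w
  set v := ⨆ N, M.bw h w N 0 x₀ with hv
  have lo : ∀ N, M.bw h w N 0 x₀ ≤ v := fun N => le_ciSup hb N
  have hi : ∀ N, v ≤ M.bw h w N 0 x₀ + ∑' k, w (k + N) := fun N => ciSup_le fun N' => cmp N' N
  refine ⟨v, ⟨fun ε hε => ?_, fun ε hε => ?_⟩, ?_⟩
  · obtain ⟨N, hN⟩ := (ht.eventually (gt_mem_nhds hε)).exists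
    obtain ⟨σ, hσ⟩ := g1 N
    exact ⟨σ, fun τ => by linarith [hσ τ, hi N]⟩
  · obtain ⟨N, hN⟩ := (ht.eventually (gt_mem_nhds hε)).exists
    obtain ⟨τ, hτ⟩ := g2 N
    exact ⟨τ, fun σ => by linarith [hτ σ, lo N]⟩
  · have : Tendsto (fun N => v - ∑' k, w (k + N)) atTop (𝓝 v) := by
      simpa using ht.const_sub v
    exact tendsto_of_tendsto_of_tendsto_of_le_of_le this tendsto_const_nhds
      (fun N => by linarith [hi N]) lo

end Model

end Pool.Agent.MP_3fd3f5_an
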